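import Pool.Agent.K3h53.Fam.Base

/-!
Closure properties of `Dv` and of spans of derivatives.
-/

set_option autoImplicit false
set_option linter.unusedSectionVars false

namespace Pool.Agent.K3h53.Fam

open Polynomial Pool.Agent.K3h17

section

variable {K Ω : Type} [Field K] [Field Ω] [Algebra (RatFunc K) Ω] [Algebra K Ω]
  [IsScalarTower K (RatFunc K) Ω] {m : ℕ} {e : Fin m → Ω} {Δ : K[X]}

theorem dv_mono {B B' : ℕ} (h : B ≤ B') {z : Ω} (hz : Dv e Δ B z) : Dv e Δ B' z := by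
  obtain ⟨w, hw, hz⟩ := hz
  exact ⟨w, fun r => (hw r).trans h, hz⟩

theorem dv_zero (B : ℕ) : Dv e Δ B (0 : Ω) :=
  ⟨0, fun r => by simp, by simp⟩

theorem dv_add {B : ℕ} {z z' : Ω} (hz : Dv e Δ B z) (hz' : Dv e Δ B z') : Dv e Δ B (z + z') := by
  obtain ⟨w, hw, hz⟩ := hz
  obtain ⟨w', hw', hz'⟩ := hz'
  refine ⟨fun r => w r + w' r, fun r => (natDegree_add_le _ _).trans (max_le (hw r) (hw' r)), ?_⟩
  rw [hz, hz', ← Finset.sum_add_distrib]
  refine Finset.sum_congr rfl fun r _ => ?_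
  rw [mul_add, map_add, add_mul]

theorem dv_smul {B b : ℕ} {z : Ω} (hz : Dv e Δ B z) (q : K[X]) (hq : q.natDegree ≤ b) :
    Dv e Δ (B + b) (aeval (xx K Ω) q * z) := by
  obtain ⟨w, hw, hz⟩ := hz
  refine ⟨fun r => q * w r, fun r => ?_, ?_⟩
  · refine natDegree_mul_le.trans ?_
    have := hw r
    omega
  · rw [hz, Finset.mul_sum]
    refine Finset.sum_congr rfl fun r _ => ?_
    rw [map_mul, map_mul, map_mul]
    ring

theorem dv_neg {B : ℕ} {z : Ω} (hz : Dv e Δ B z) : Dv e Δ B (-z) := by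
  have h := dv_smul hz (-1 : K[X]) (b := 0) (by simp)
  simpa using h

theorem dv_sum {ι : Type} (s : Finset ι) {B : ℕ} (f : ι → Ω) (h : ∀ i ∈ s, Dv e Δ B (f i)) :
    Dv e Δ B (∑ i ∈ s, f i) := by
  classical
  induction s using Finset.induction_on with
  | empty => simpa using dv_zero B
  | insert a s ha ih =>
    rw [Finset.sum_insert ha]
    exact dv_add (h a (Finset.mem_insert_self a s))
      (ih fun i hi => h i (Finset.mem_insert_of_mem hi))

/-- A fixed element has a nonzero polynomial multiple in `Dv`. -/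
theorem dv_exists {P : Subgroup (Ω ≃ₐ[RatFunc K] Ω)}
    (hspan : ∀ z : Ω, (∀ γ ∈ P, γ z = z) →
      ∃ c : Fin m → RatFunc K, z = ∑ r, algebraMap (RatFunc K) Ω (c r) * e r)
    (hΔ : Δ ≠ 0) (z : Ω) (hz : ∀ γ ∈ P, γ z = z) :
    ∃ (q : K[X]) (B : ℕ), q ≠ 0 ∧ Dv e Δ B (aeval (xx K Ω) q * z) := by
  obtain ⟨c, hc⟩ := hspan z hz
  obtain ⟨b, u, hb, hu⟩ := exists_den (K := K) (Ω := Ω) c
  refine ⟨Δ * b, Finset.univ.sup fun j => (u j).natDegree, mul_ne_zero hΔ hb, u,
    fun j => Finset.le_sup (f := fun j => (u j).natDegree) (Finset.mem_univ j), ?_⟩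
  rw [hc, Finset.mul_sum]
  refine Finset.sum_congr rfl fun r _ => ?_
  rw [map_mul, map_mul, ← hu r]
  ring

/-- The polynomial span of the first `n` derivatives of `v`. -/
def Ls (δ : Derivation K Ω Ω) (v : Ω) (n : ℕ) (z : Ω) : Prop :=
  ∃ r : ℕ → K[X], z = ∑ i ∈ Finset.range n, aeval (xx K Ω) (r i) * δ^[i] v

variable {δ : Derivation K Ω Ω} {v : Ω}

theorem ls_add {n : ℕ} {z z' : Ω} (hz : Ls δ v n z) (hz' : Ls δ v n z') : Ls δ v n (z + z') := by
  obtain ⟨r, hr⟩ := hz
  obtain ⟨r', hr'⟩ := hz'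
  refine ⟨fun i => r i + r' i, ?_⟩
  rw [hr, hr', ← Finset.sum_add_distrib]
  refine Finset.sum_congr rfl fun i _ => ?_
  rw [map_add, add_mul]

theorem ls_zero (n : ℕ) : Ls δ v n (0 : Ω) := ⟨0, by simp⟩

theorem ls_smul {n : ℕ} {z : Ω} (hz : Ls δ v n z) (q : K[X]) :
    Ls δ v n (aeval (xx K Ω) q * z) := by
  obtain ⟨r, hr⟩ := hz
  refine ⟨fun i => q * r i, ?_⟩
  rw [hr, Finset.mul_sum]
  refine Finset.sum_congr rfl fun i _ => ?_
  rw [map_mul, mul_assoc]

theorem ls_sum {ι : Type} (s : Finset ι) {n : ℕ} (f : ι → Ω) (h : ∀ i ∈ s, Ls δ v n (f i)) :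
    Ls δ v n (∑ i ∈ s, f i) := by
  classical
  induction s using Finset.induction_on with
  | empty => simpa using ls_zero n
  | insert a s ha ih =>
    rw [Finset.sum_insert ha]
    exact ls_add (h a (Finset.mem_insert_self a s))
      (ih fun i hi => h i (Finset.mem_insert_of_mem hi))

theorem ls_base {n i : ℕ} (hi : i < n) : Ls δ v n (δ^[i] v) := by
  refine ⟨fun j => if j = i then 1 else 0, ?_⟩
  rw [Finset.sum_eq_single i]
  · simp
  · intro j _ hj
    simp [hj]
  · intro h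
    exact absurd (Finset.mem_range.2 hi) h

theorem ls_mono {n n' : ℕ} (h : n ≤ n') {z : Ω} (hz : Ls δ v n z) : Ls δ v n' z := by
  obtain ⟨r, hr⟩ := hz
  rw [hr]
  refine ls_sum _ _ fun i hi => ls_smul (ls_base ?_) _
  rw [Finset.mem_range] at hi
  omega

theorem ls_der (hδ : δ (xx K Ω) = 1) {n : ℕ} {z : Ω} (hz : Ls δ v n z) :
    Ls δ v (n + 1) (δ z) := by
  obtain ⟨r, hr⟩ := hz
  rw [hr, map_sum]
  refine ls_sum _ _ fun i hi => ?_
  rw [Finset.mem_range] at hi
  rw [Derivation.leibniz, der_aeval δ hδ, smul_eq_mul, smul_eq_mul,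
    ← Function.iterate_succ_apply' δ i v]
  refine ls_add (ls_smul (ls_base (by omega)) _) ?_
  rw [mul_comm]
  exact ls_smul (ls_base (by omega)) _

/-- Integration by parts. -/
noncomputable def Th (δ : Derivation K Ω Ω) (v : Ω) (i : ℕ) (r : K[X]) : Ω :=
  ∑ s ∈ Finset.range i, aeval (xx K Ω) ((-1) ^ s * derivative^[s] r) * δ^[i - 1 - s] v

theorem th_der (hδ : δ (xx K Ω) = 1) (i : ℕ) (r : K[X]) :
    δ (Th δ v i r) = aeval (xx K Ω) r * δ^[i] v -
      aeval (xx K Ω) ((-1) ^ i * derivative^[i] r) * v := by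
  have key : ∀ n, n ≤ i → δ (∑ s ∈ Finset.range n,
      aeval (xx K Ω) ((-1) ^ s * derivative^[s] r) * δ^[i - 1 - s] v) =
      aeval (xx K Ω) r * δ^[i] v -
      aeval (xx K Ω) ((-1) ^ n * derivative^[n] r) * δ^[i - n] v := by
    intro n
    induction n with
    | zero => intro _; simp
    | succ n ih =>
      intro hn
      rw [Finset.sum_range_succ, map_add, ih (by omega), Derivation.leibniz, der_aeval δ hδ,
        smul_eq_mul, smul_eq_mul, ← Function.iterate_succ_apply' δ (i - 1 - n) v]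
      have h1 : (i - 1 - n).succ = i - n := by omega
      have h2 : i - 1 - n = i - (n + 1) := by omega
      have h3 : derivative ((-1 : K[X]) ^ n * derivative^[n] r) =
          - ((-1) ^ (n + 1) * derivative^[n + 1] r) := by
        rw [derivative_mul, Function.iterate_succ_apply']
        have : derivative ((-1 : K[X]) ^ n) = 0 := by
          rw [show ((-1 : K[X])) = C (-1) by simp, ← C_pow, derivative_C]
        rw [this]
        ring
      rw [h1, h2, h3, map_neg]
      ring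
  have h := key i le_rfl
  rw [Nat.sub_self] at h
  exact h

end

end Pool.Agent.K3h53.Fam
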