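import Mathlib

/-!
Degrees of the adjoint of a differential operator on monomials.
-/

set_option autoImplicit false

namespace Pool.Agent.K3h53.Fam

open Polynomial

variable {K : Type} [Field K] [CharZero K]

/-- The adjoint operator. -/
noncomputable def Kap (M : ℕ) (p : ℕ → K[X]) (q : K[X]) : K[X] :=
  ∑ j ∈ Finset.range (M + 1), (-1) ^ j * derivative^[j] (p j * q)

/-- Shifted coefficients. -/
noncomputable def Pc (M : ℕ) (p : ℕ → K[X]) (j t : ℕ) : K :=
  if M ≤ t + j then (p j).coeff (t + j - M) else 0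

theorem kap_coeff (M : ℕ) (p : ℕ → K[X]) (a t : ℕ) (ha : M ≤ a) :
    (Kap M p (X ^ a)).coeff (a - M + t) =
      ∑ j ∈ Finset.range (M + 1),
        (-1) ^ j * (((a - M + t + 1).ascFactorial j : ℕ) : K) * Pc M p j t := by
  rw [Kap, finsetSum_coeff]
  refine Finset.sum_congr rfl fun j _ => ?_
  have h1 : ((-1 : K[X]) ^ j) = C ((-1) ^ j) := by
    rw [C_pow]
    simp
  rw [h1, coeff_C_mul, coeff_iterate_derivative, Nat.add_descFactorial_eq_ascFactorial,
    coeff_mul_X_pow', nsmul_eq_mul, mul_assoc, Pc]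
  congr 2
  by_cases h2 : M ≤ t + j
  · rw [if_pos h2, if_pos (by omega)]
    congr 1
    omega
  · rw [if_neg h2, if_neg (by omega)]

theorem exists_top (M : ℕ) (p : ℕ → K[X]) (hp : p M ≠ 0) :
    ∃ s, (∃ j ≤ M, Pc M p j s ≠ 0) ∧ ∀ t > s, ∀ j ≤ M, Pc M p j t = 0 := by
  classical
  let B : ℕ := M + (Finset.range (M + 1)).sup (fun j => (p j).natDegree)
  have hB : ∀ t > B, ∀ j ≤ M, Pc M p j t = 0 := by
    intro t ht j hj
    have h1 : (p j).natDegree ≤ (Finset.range (M + 1)).sup (fun j => (p j).natDegree) :=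
      Finset.le_sup (f := fun j => (p j).natDegree) (Finset.mem_range.2 (by omega))
    rw [Pc]
    split_ifs with h2
    · apply coeff_eq_zero_of_natDegree_lt
      have h3 : M + (Finset.range (M + 1)).sup (fun j => (p j).natDegree) < t := ht
      omega
    · rfl
  let Q : ℕ → Prop := fun t => ∃ j ≤ M, Pc M p j t ≠ 0
  have hQ : Q (p M).natDegree := by
    refine ⟨M, le_rfl, ?_⟩
    rw [Pc, if_pos (by omega), Nat.add_sub_cancel]
    exact leadingCoeff_ne_zero.2 hp
  have hle : (p M).natDegree ≤ B := by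
    have : (p M).natDegree ≤ (Finset.range (M + 1)).sup (fun j => (p j).natDegree) :=
      Finset.le_sup (f := fun j => (p j).natDegree) (Finset.mem_range.2 (by omega))
    change (p M).natDegree ≤ M + (Finset.range (M + 1)).sup (fun j => (p j).natDegree)
    omega
  refine ⟨Nat.findGreatest Q B, Nat.findGreatest_spec hle hQ, ?_⟩
  intro t ht j hj
  by_contra hne
  by_cases htB : t ≤ B
  · exact Nat.findGreatest_is_greatest ht htB ⟨j, hj, hne⟩
  · exact hne (hB t (by omega) j hj)

/-- The polynomial in `n` giving the top coefficient. -/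
noncomputable def Rp (M : ℕ) (c : ℕ → K) : K[X] :=
  ∑ j ∈ Finset.range (M + 1), C ((-1) ^ j * c j) * (ascPochhammer K j).comp (X + 1)

theorem rp_eval (M : ℕ) (c : ℕ → K) (n : ℕ) :
    (Rp M c).eval (n : K) = ∑ j ∈ Finset.range (M + 1),
        (-1) ^ j * (((n + 1).ascFactorial j : ℕ) : K) * c j := by
  rw [Rp, eval_finsetSum]
  refine Finset.sum_congr rfl fun j _ => ?_
  rw [eval_mul, eval_C, eval_comp, eval_add, eval_X, eval_one]
  have h1 : (ascPochhammer K j).eval ((n : K) + 1) = (((n + 1).ascFactorial j : ℕ) : K) := by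
    have h2 := ascPochhammer_eval_cast K j (n + 1)
    rw [← ascPochhammer_nat_eq_ascFactorial]
    rw [h2]
    push_cast
    rfl
  rw [h1]
  ring

theorem rp_ne_zero (M : ℕ) (c : ℕ → K) (hc : ∃ j ≤ M, c j ≠ 0) : Rp M c ≠ 0 := by
  classical
  obtain ⟨j0, hj0, hcj0⟩ := hc
  let Q : ℕ → Prop := fun t => c t ≠ 0
  set J := Nat.findGreatest Q M with hJ
  have hJQ : c J ≠ 0 := Nat.findGreatest_spec (P := Q) hj0 hcj0
  have hJM : J ≤ M := Nat.findGreatest_le M
  have hJg : ∀ j, J < j → j ≤ M → c j = 0 := by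
    intro j h1 h2
    by_contra h3
    exact Nat.findGreatest_is_greatest h1 h2 h3
  intro h0
  have h1 := congrArg (fun f => coeff f J) h0
  simp only [Rp, finsetSum_coeff, coeff_C_mul, coeff_zero] at h1
  have hmon : ∀ j, ((ascPochhammer K j).comp (X + 1)).Monic := by
    intro j
    apply (monic_ascPochhammer K j).comp
    · exact monic_X_add_C 1
    · rw [show (X + 1 : K[X]) = X + C 1 by simp, natDegree_X_add_C]
      exact one_ne_zero
  have hdeg : ∀ j, ((ascPochhammer K j).comp (X + 1)).natDegree = j := by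
    intro j
    rw [natDegree_comp, ascPochhammer_natDegree, show (X + 1 : K[X]) = X + C 1 by simp,
      natDegree_X_add_C, mul_one]
  rw [Finset.sum_eq_single J] at h1
  · have h2 := (hmon J).coeff_natDegree
    rw [hdeg] at h2
    rw [h2, mul_one] at h1
    rcases mul_eq_zero.1 h1 with h3 | h3
    · exact (pow_ne_zero J (neg_ne_zero.2 one_ne_zero)) h3
    · exact hJQ h3
  · intro j hj hne
    rw [Finset.mem_range] at hj
    rcases lt_or_gt_of_ne hne with h3 | h3
    · rw [coeff_eq_zero_of_natDegree_lt (by rw [hdeg]; exact h3), mul_zero]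
    · rw [hJg j h3 (by omega)]
      simp
  · intro h3
    exact absurd (Finset.mem_range.2 (by omega)) h3

theorem kap_degree (M : ℕ) (p : ℕ → K[X]) (hp : p M ≠ 0) :
    ∃ s a₀ : ℕ, ∀ a ≥ a₀, M ≤ a ∧ (Kap M p (X ^ a)).natDegree = a - M + s := by
  obtain ⟨s, hs, hs2⟩ := exists_top M p hp
  have hR := rp_ne_zero M (fun j => Pc M p j s) hs
  have hfin : Set.Finite {n : ℕ | (Rp M (fun j => Pc M p j s)).IsRoot (n : K)} :=
    (Polynomial.finite_setOfPred_isRoot hR).preimage (Nat.cast_injective.injOn)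
  obtain ⟨b, hb⟩ := hfin.bddAbove
  refine ⟨s, M + b + 1, ?_⟩
  intro a ha
  have haM : M ≤ a := by omega
  refine ⟨haM, ?_⟩
  apply natDegree_eq_of_le_of_coeff_ne_zero
  · rw [natDegree_le_iff_coeff_eq_zero]
    intro n hn
    obtain ⟨t, rfl⟩ : ∃ t, n = a - M + t := ⟨n - (a - M), by omega⟩
    rw [kap_coeff M p a t haM]
    apply Finset.sum_eq_zero
    intro j hj
    rw [Finset.mem_range] at hj
    rw [hs2 t (by omega) j (by omega), mul_zero]
  · rw [kap_coeff M p a s haM, ← rp_eval M (fun j => Pc M p j s) (a - M + s)]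
    intro h0
    have h1 : a - M + s ∈ {n : ℕ | (Rp M (fun j => Pc M p j s)).IsRoot (n : K)} := h0
    have h2 := hb h1
    omega

end Pool.Agent.K3h53.Fam
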