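import Pool.Agent.K3h53.Cyc.Main
import Pool.Agent.K3h53.Fam.Cls
import Pool.Agent.K3h53.Fam.Deg

/-!
Brick D2 of the project of helper17: adjoint differential operators.
-/

set_option autoImplicit false
set_option linter.unusedSectionVars false

namespace Pool.Agent.K3h53.Fam

open Polynomial Pool.Agent.K3h17

section

variable {K Ω : Type} [Field K] [Field Ω] [Algebra (RatFunc K) Ω] [Algebra K Ω]
  [IsScalarTower K (RatFunc K) Ω] {m : ℕ} {e : Fin m → Ω} {Δ : K[X]} {δ : Derivation K Ω Ω}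

/-- Derivatives of `Q ^ N * v`. -/
theorem der_pow (hδ : δ (xx K Ω) = 1) (v : Ω) (Q : K[X]) (N i : ℕ) (hi : i ≤ N) :
    ∃ z, Ls δ v (i + 1) z ∧
      δ^[i] (aeval (xx K Ω) Q ^ N * v) = aeval (xx K Ω) Q ^ (N - i) * z := by
  induction i with
  | zero => exact ⟨v, ls_base (i := 0) (by omega), by simp⟩
  | succ i ih =>
    obtain ⟨z, hz, hzi⟩ := ih (by omega)
    refine ⟨aeval (xx K Ω) (((N - i : ℕ) : K[X]) * derivative Q) * z + aeval (xx K Ω) Q * δ z,
      ls_add (ls_smul (ls_mono (by omega) hz) _) (ls_smul (ls_der hδ hz) _), ?_⟩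
    rw [Function.iterate_succ_apply', hzi, Derivation.leibniz, Derivation.leibniz_pow,
      der_aeval δ hδ]
    obtain ⟨n, hn⟩ : ∃ n, N - i = n + 1 := ⟨N - i - 1, by omega⟩
    have h2 : N - (i + 1) = n := by omega
    rw [hn, h2, map_mul, map_natCast]
    simp only [smul_eq_mul, nsmul_eq_mul, Nat.add_sub_cancel]
    ring

/-- The derivatives of `v` in terms of those of `Q ^ N * v`. -/
theorem inv_pow (hδ : δ (xx K Ω) = 1) (v : Ω) (Q : K[X]) (N j : ℕ) :
    Ls δ (aeval (xx K Ω) Q ^ N * v) (j + 1) (aeval (xx K Ω) Q ^ (N + j) * δ^[j] v) := by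
  induction j with
  | zero => exact ls_base (i := 0) (by omega)
  | succ j ih =>
    have h1 := ls_der hδ ih
    have h2 : aeval (xx K Ω) Q ^ (N + (j + 1)) * δ^[j + 1] v =
        aeval (xx K Ω) Q * δ (aeval (xx K Ω) Q ^ (N + j) * δ^[j] v) +
          aeval (xx K Ω) (- (((N + j : ℕ) : K[X]) * derivative Q)) *
            (aeval (xx K Ω) Q ^ (N + j) * δ^[j] v) := by
      rw [Derivation.leibniz, Derivation.leibniz_pow, der_aeval δ hδ,
        ← Function.iterate_succ_apply' δ j v, map_neg, map_mul, map_natCast]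
      simp only [smul_eq_mul, nsmul_eq_mul]
      rcases Nat.eq_zero_or_pos (N + j) with h0 | hpos
      · rw [h0]
        have h3 : N + (j + 1) = 1 := by omega
        rw [h3]
        simp
      · obtain ⟨n, hn⟩ : ∃ n, N + j = n + 1 := ⟨N + j - 1, by omega⟩
        have h3 : N + (j + 1) = n + 2 := by omega
        rw [hn, h3, Nat.add_sub_cancel]
        push_cast
        ring
    rw [h2]
    exact ls_add (ls_smul h1 _) (ls_smul (ls_mono (by omega) ih) _)

theorem iter_natDegree_le (q : K[X]) (s : ℕ) :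
    ((-1) ^ s * derivative^[s] q).natDegree ≤ q.natDegree := by
  have h1 : ((-1 : K[X]) ^ s) = C ((-1) ^ s) := by
    rw [C_pow]
    simp
  rw [h1]
  refine (natDegree_C_mul_le _ _).trans ?_
  exact (natDegree_iterate_derivative q s).trans (Nat.sub_le _ _)

theorem th_dv (v : Ω) (C1 i : ℕ) (h : ∀ j < i, Dv e Δ C1 (δ^[j] v)) (r : K[X]) :
    Dv e Δ (C1 + r.natDegree) (Th δ v i r) := by
  rw [Th]
  refine dv_sum _ _ fun s hs => ?_
  rw [Finset.mem_range] at hs
  exact dv_smul (h _ (by omega)) _ (iter_natDegree_le r s)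

end

theorem t_fam : St_fam := by
  intro K Ω _ _ _ _ _ _ _ _ hreg δ hδ hcomm P m e he hspan Δ hΔ
  classical
  have : CharZero (RatFunc K) := charZero_of_injective_algebraMap (algebraMap K (RatFunc K)).injective
  set M := P.index with hMdef
  have hM : 0 < M := Nat.pos_of_ne_zero P.index_ne_zero_of_finite
  set A := fun u : K[X] => aeval (xx K Ω) u with hA
  -- the cyclic vector
  obtain ⟨yc, hfix, hgen⟩ := Pool.Agent.K3h53.Cyc.t_cyc (RatFunc K) Ω (δ.restrictScalars ℤ)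
    (fun a => der_ratFunc δ hδ a) hcomm (by
      intro z hz
      obtain ⟨a, ha⟩ := hreg z (const_alg δ hδ z hz)
      exact ⟨algebraMap K (RatFunc K) a, by rw [← IsScalarTower.algebraMap_apply, ha]⟩) P
  have hcm : ∀ (γ : Ω ≃ₐ[RatFunc K] Ω) (j : ℕ) (z : Ω), δ^[j] (γ z) = γ (δ^[j] z) := by
    intro γ j z
    induction j with
    | zero => rfl
    | succ j ih =>
      rw [Function.iterate_succ_apply', Function.iterate_succ_apply', ih, hcomm]
  have hP : ∀ (v : Ω), (∀ γ ∈ P, γ v = v) → ∀ j : ℕ, ∀ γ ∈ P, γ (δ^[j] v) = δ^[j] v := by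
    intro v hv j γ hγ
    rw [← hcm, hv γ hγ]
  have hyc : ∀ γ ∈ P, γ yc = yc := fun γ hγ => (hfix γ).2 hγ
  have hgen' : ∀ z : Ω, (∀ γ ∈ P, γ z = z) → ∃ c : ℕ → RatFunc K,
      z = ∑ j ∈ Finset.range M, algebraMap (RatFunc K) Ω (c j) * (δ^[j] yc) := hgen
  -- denominators
  have h1 : ∀ j : ℕ, ∃ (q : K[X]) (B : ℕ), q ≠ 0 ∧ Dv e Δ B (aeval (xx K Ω) q * δ^[j] yc) :=
    fun j => dv_exists hspan hΔ _ (hP yc hyc j)
  choose q B hq0 hqB using h1
  obtain ⟨c, hc⟩ := hgen' (yc ^ 2) (by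
    intro γ hγ
    rw [map_pow, hyc γ hγ])
  obtain ⟨b, u, hb, hu⟩ := exists_den (K := K) (Ω := Ω) (fun j : Fin M => c (j : ℕ))
  set Q : K[X] := (∏ j ∈ Finset.range (M + 1), q j) * b with hQ
  have hQ0 : Q ≠ 0 := mul_ne_zero (Finset.prod_ne_zero_iff.2 fun j _ => hq0 j) hb
  have hQd : ∀ j ≤ M, ∃ B', Dv e Δ B' (aeval (xx K Ω) Q * δ^[j] yc) := by
    intro j hj
    have h2 : Q = (b * ∏ i ∈ (Finset.range (M + 1)).erase j, q i) * q j := by
      rw [hQ, ← Finset.mul_prod_erase (Finset.range (M + 1)) q (Finset.mem_range.2 (show j < M + 1 by omega))]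
      ring
    refine ⟨B j + (b * ∏ i ∈ (Finset.range (M + 1)).erase j, q i).natDegree, ?_⟩
    rw [h2, map_mul (aeval (xx K Ω)) (b * ∏ i ∈ (Finset.range (M + 1)).erase j, q i), mul_assoc]
    exact dv_smul (hqB j) _ le_rfl
  have hQc : ∀ j < M, ∃ d : K[X],
      aeval (xx K Ω) Q * algebraMap (RatFunc K) Ω (c j) = aeval (xx K Ω) d := by
    intro j hj
    refine ⟨(∏ i ∈ Finset.range (M + 1), q i) * u ⟨j, hj⟩, ?_⟩
    rw [hQ, map_mul, map_mul, mul_assoc, ← hu ⟨j, hj⟩]
  clear_value Q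
  -- the vector
  set N := M + 1 with hN
  set y : Ω := aeval (xx K Ω) Q ^ N * yc with hy
  have hQA : aeval (xx K Ω) Q ≠ 0 := aeval_xx_ne_zero hQ0
  have hyfix : ∀ γ : Ω ≃ₐ[RatFunc K] Ω, γ y = y ↔ γ ∈ P := by
    intro γ
    rw [← hfix γ, hy, map_mul, map_pow, gal_aeval]
    constructor
    · intro h
      exact mul_left_cancel₀ (pow_ne_zero N hQA) h
    · intro h
      rw [h]
  have hyP : ∀ γ ∈ P, γ y = y := fun γ hγ => (hyfix γ).2 hγ
  -- derivatives of y are in Dv
  have hyD : ∀ i ≤ M, ∃ B', Dv e Δ B' (δ^[i] y) := by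
    intro i hi
    obtain ⟨z, ⟨r, hr⟩, hz2⟩ := der_pow hδ yc Q N i (by omega)
    have h2 : ∀ j : ℕ, ∃ B', j ≤ M → Dv e Δ B' (aeval (xx K Ω) Q * δ^[j] yc) := by
      intro j
      by_cases hj : j ≤ M
      · obtain ⟨B', hB'⟩ := hQd j hj
        exact ⟨B', fun _ => hB'⟩
      · exact ⟨0, fun h => absurd h hj⟩
    choose B2 hB2 using h2
    let g : ℕ → ℕ := fun j => B2 j + (Q ^ (N - i - 1) * r j).natDegree
    refine ⟨(Finset.range (i + 1)).sup g, ?_⟩
    rw [hy, hz2, hr, Finset.mul_sum]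
    refine dv_sum _ _ fun j hj => ?_
    have hj' := Finset.mem_range.1 hj
    have h3 : aeval (xx K Ω) Q ^ (N - i) * (aeval (xx K Ω) (r j) * δ^[j] yc) =
        aeval (xx K Ω) (Q ^ (N - i - 1) * r j) * (aeval (xx K Ω) Q * δ^[j] yc) := by
      obtain ⟨n, hn⟩ : ∃ n, N - i = n + 1 := ⟨N - i - 1, by omega⟩
      rw [hn, Nat.add_sub_cancel, map_mul, map_pow]
      ring
    rw [h3]
    exact dv_mono (Finset.le_sup (f := g) hj) (dv_smul (hB2 j (by omega)) _ le_rfl)
  have hyD2 : ∀ i : ℕ, ∃ B', i ≤ M → Dv e Δ B' (δ^[i] y) := by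
    intro i
    by_cases hi : i ≤ M
    · obtain ⟨B', hB'⟩ := hyD i hi
      exact ⟨B', fun _ => hB'⟩
    · exact ⟨0, fun h => absurd h hi⟩
  choose B3 hB3 using hyD2
  set C1 := (Finset.range (M + 1)).sup B3 with hC1
  have hyC1 : ∀ i ≤ M, Dv e Δ C1 (δ^[i] y) := by
    intro i hi
    exact dv_mono (Finset.le_sup (f := B3) (Finset.mem_range.2 (by omega))) (hB3 i hi)
  -- y ^ 2
  have hy2 : Ls δ y M (y ^ 2) := by
    have h2 : y ^ 2 = ∑ j ∈ Finset.range M, aeval (xx K Ω) Q ^ (2 * N) *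
        (algebraMap (RatFunc K) Ω (c j) * δ^[j] yc) := by
      rw [← Finset.mul_sum, ← hc, hy]
      ring
    rw [h2]
    refine ls_sum _ _ fun j hj => ?_
    rw [Finset.mem_range] at hj
    obtain ⟨d, hd⟩ := hQc j hj
    have h3 : aeval (xx K Ω) Q ^ (2 * N) * (algebraMap (RatFunc K) Ω (c j) * δ^[j] yc) =
        aeval (xx K Ω) (d * Q ^ (M - j)) * (aeval (xx K Ω) Q ^ (N + j) * δ^[j] yc) := by
      rw [map_mul, map_pow, ← hd]
      have h4 : 2 * N = 1 + (M - j) + (N + j) := by omega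
      rw [h4, pow_add, pow_add, pow_one]
      ring
    rw [h3]
    exact ls_smul (ls_mono (by omega) (inv_pow hδ yc Q N j)) _
  obtain ⟨r, hr⟩ := hy2
  -- the relation
  obtain ⟨c', hc'⟩ := hgen' (δ^[M] y) (hP y hyP M)
  obtain ⟨b', u', hb', hu'⟩ := exists_den (K := K) (Ω := Ω) (fun j : Fin M => c' (j : ℕ))
  have hrel0 : Ls δ y M (aeval (xx K Ω) (b' * Q ^ (N + M)) * δ^[M] y) := by
    rw [hc', Finset.mul_sum]
    refine ls_sum _ _ fun j hj => ?_
    rw [Finset.mem_range] at hj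
    have h3 : aeval (xx K Ω) (b' * Q ^ (N + M)) *
        (algebraMap (RatFunc K) Ω (c' j) * δ^[j] yc) =
        aeval (xx K Ω) (u' ⟨j, hj⟩ * Q ^ (M - j)) * (aeval (xx K Ω) Q ^ (N + j) * δ^[j] yc) := by
      rw [map_mul, map_mul, ← hu' ⟨j, hj⟩, map_pow, map_pow]
      have h4 : N + M = (M - j) + (N + j) := by omega
      rw [h4, pow_add]
      ring
    rw [h3]
    exact ls_smul (ls_mono (by omega) (inv_pow hδ yc Q N j)) _
  obtain ⟨r', hr'⟩ := hrel0
  set p : ℕ → K[X] := fun j => if j = M then b' * Q ^ (N + M) else - r' j with hp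
  have hpM : p M ≠ 0 := by
    rw [hp]
    simp only [if_true]
    exact mul_ne_zero hb' (pow_ne_zero _ hQ0)
  have hrel : ∑ j ∈ Finset.range (M + 1), aeval (xx K Ω) (p j) * δ^[j] y = 0 := by
    rw [Finset.sum_range_succ]
    have h3 : ∑ j ∈ Finset.range M, aeval (xx K Ω) (p j) * δ^[j] y =
        - ∑ j ∈ Finset.range M, aeval (xx K Ω) (r' j) * δ^[j] y := by
      rw [← Finset.sum_neg_distrib]
      refine Finset.sum_congr rfl fun j hj => ?_
      rw [Finset.mem_range] at hj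
      rw [hp]
      simp only [if_neg (show ¬ j = M by omega), map_neg, neg_mul]
    have h4 : p M = b' * Q ^ (N + M) := by
      rw [hp]
      simp
    rw [h3, ← hr', h4, neg_add_cancel]
  obtain ⟨s, a₀, hdeg⟩ := kap_degree M p hpM
  -- the data
  set CH := (Finset.range M).sup (fun i => C1 + (r i).natDegree) with hCH
  set Dg := (Finset.range (M + 1)).sup (fun i => (p i).natDegree) with hDg
  refine ⟨y, ∑ i ∈ Finset.range M, (-1) ^ i * derivative^[i] (r i),
    ∑ i ∈ Finset.range M, Th δ y i (r i), CH + (C1 + Dg + M), a₀ + s, hyfix, ?_, ?_, ?_⟩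
  · refine dv_mono (Nat.le_add_right _ _) (dv_sum _ _ fun i hi => ?_)
    have hi' := Finset.mem_range.1 hi
    exact dv_mono (Finset.le_sup (f := fun i => C1 + (r i).natDegree) hi)
      (th_dv y C1 i (fun j hj => hyC1 j (by omega)) (r i))
  · rw [map_sum, hr, map_sum, Finset.sum_mul, ← Finset.sum_sub_distrib]
    exact Finset.sum_congr rfl fun i _ => th_der hδ i (r i)
  · intro k hk
    have ha : a₀ ≤ k + M - s := by omega
    obtain ⟨h5, h6⟩ := hdeg (k + M - s) ha
    refine ⟨Kap M p (X ^ (k + M - s)),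
      - ∑ j ∈ Finset.range (M + 1), Th δ y j (p j * X ^ (k + M - s)), ?_, ?_, ?_⟩
    · rw [h6]
      omega
    · refine dv_neg (dv_sum _ _ fun j hj => ?_)
      have hj' := Finset.mem_range.1 hj
      refine dv_mono ?_ (th_dv y C1 j (fun i hi => hyC1 i (by omega)) (p j * X ^ (k + M - s)))
      have h7 : (p j * X ^ (k + M - s)).natDegree ≤ (p j).natDegree + (k + M - s) := by
        refine natDegree_mul_le.trans ?_
        rw [natDegree_X_pow]
      have h8 : (p j).natDegree ≤ Dg :=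
        Finset.le_sup (f := fun i => (p i).natDegree) hj
      omega
    · rw [map_neg, map_sum, Kap, map_sum, Finset.sum_mul, ← Finset.sum_neg_distrib]
      have h9 : ∀ j ∈ Finset.range (M + 1), - δ (Th δ y j (p j * X ^ (k + M - s))) =
          aeval (xx K Ω) ((-1) ^ j * derivative^[j] (p j * X ^ (k + M - s))) * y -
          aeval (xx K Ω) (X ^ (k + M - s) : K[X]) * (aeval (xx K Ω) (p j) * δ^[j] y) := by
        intro j _
        rw [th_der hδ, map_mul (aeval (xx K Ω)) (p j) (X ^ (k + M - s))]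
        ring
      rw [Finset.sum_congr rfl h9, Finset.sum_sub_distrib, ← Finset.mul_sum, hrel, mul_zero,
        sub_zero]

end Pool.Agent.K3h53.Fam
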