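import Pool.Agent.K3h17.Stm

/-!
Basic facts on a derivation `δ` with `δ x = 1` on a finite extension of `K(x)`.
-/

set_option autoImplicit false
set_option linter.unusedSectionVars false

namespace Pool.Agent.K3h53.Fam

open Polynomial Pool.Agent.K3h17

section

variable {K Ω : Type} [Field K] [Field Ω] [Algebra (RatFunc K) Ω] [Algebra K Ω]
  [IsScalarTower K (RatFunc K) Ω]

theorem aeval_xx (u : K[X]) :
    aeval (xx K Ω) u = algebraMap (RatFunc K) Ω (algebraMap K[X] (RatFunc K) u) := by
  have h1 : xx K Ω = algebraMap (RatFunc K) Ω (algebraMap K[X] (RatFunc K) X) := by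
    rw [RatFunc.algebraMap_X]
    rfl
  rw [h1, aeval_algebraMap_apply, aeval_algebraMap_apply, aeval_X_left_apply]

theorem aeval_xx_eq_zero {u : K[X]} (h : aeval (xx K Ω) u = 0) : u = 0 := by
  rw [aeval_xx] at h
  have h1 := (map_eq_zero (algebraMap (RatFunc K) Ω)).1 h
  exact (map_eq_zero_iff _ (RatFunc.algebraMap_injective K)).1 h1

theorem aeval_xx_ne_zero {u : K[X]} (h : u ≠ 0) : aeval (xx K Ω) u ≠ 0 :=
  fun h' => h (aeval_xx_eq_zero h')

theorem der_aeval (δ : Derivation K Ω Ω) (hδ : δ (xx K Ω) = 1) (u : K[X]) :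
    δ (aeval (xx K Ω) u) = aeval (xx K Ω) (derivative u) := by
  rw [Derivation.map_aeval, hδ, smul_eq_mul, mul_one]

theorem der_ratFunc (δ : Derivation K Ω Ω) (hδ : δ (xx K Ω) = 1) (a : RatFunc K) :
    δ (algebraMap (RatFunc K) Ω a) ∈ Set.range (algebraMap (RatFunc K) Ω) := by
  have hd : aeval (xx K Ω) a.denom ≠ 0 := aeval_xx_ne_zero a.denom_ne_zero
  have h1 : algebraMap (RatFunc K) Ω a * aeval (xx K Ω) a.denom = aeval (xx K Ω) a.num := by
    rw [aeval_xx, aeval_xx, ← map_mul]
    congr 1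
    conv_lhs => rw [← RatFunc.num_div_denom a]
    rw [RatFunc.num_div_denom a]
    have h2 : algebraMap K[X] (RatFunc K) a.denom ≠ 0 :=
      fun h => a.denom_ne_zero ((map_eq_zero_iff _ (RatFunc.algebraMap_injective K)).1 h)
    rw [← eq_div_iff h2, RatFunc.num_div_denom]
  have h2 := congrArg δ h1
  rw [Derivation.leibniz, der_aeval δ hδ, der_aeval δ hδ, smul_eq_mul, smul_eq_mul] at h2
  refine ⟨(algebraMap K[X] (RatFunc K) (derivative a.num) -
    a * algebraMap K[X] (RatFunc K) (derivative a.denom)) /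
      algebraMap K[X] (RatFunc K) a.denom, ?_⟩
  rw [map_div₀, map_sub, map_mul, ← aeval_xx, ← aeval_xx, ← aeval_xx, div_eq_iff hd]
  linear_combination -h2

theorem gal_aeval (γ : Ω ≃ₐ[RatFunc K] Ω) (u : K[X]) :
    γ (aeval (xx K Ω) u) = aeval (xx K Ω) u := by
  rw [aeval_xx, AlgEquiv.commutes]

/-- Common denominators. -/
theorem exists_den {ι : Type} [Finite ι] (c : ι → RatFunc K) :
    ∃ (b : K[X]) (u : ι → K[X]), b ≠ 0 ∧
      ∀ i, aeval (xx K Ω) b * algebraMap (RatFunc K) Ω (c i) = aeval (xx K Ω) (u i) := by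
  obtain ⟨b, hb⟩ := IsLocalization.exist_integer_multiples_of_finite (nonZeroDivisors K[X]) c
  choose u hu using hb
  refine ⟨b, u, nonZeroDivisors.coe_ne_zero b, ?_⟩
  intro i
  rw [aeval_xx, aeval_xx, ← map_mul, hu i, Algebra.smul_def]

end

section Const

variable {K Ω : Type} [Field K] [CharZero K] [Field Ω] [Algebra (RatFunc K) Ω] [Algebra K Ω]
  [IsScalarTower K (RatFunc K) Ω]

theorem alg_of_rel (δ : Derivation K Ω Ω) (hδ : δ (xx K Ω) = 1) (z : Ω) (hz : δ z = 0) (n : ℕ) :
    ∀ (N : ℕ) (p : Fin n → K[X]), (∀ j, (p j).natDegree ≤ N) → p ≠ 0 →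
      ∑ j, aeval (xx K Ω) (p j) * z ^ (j : ℕ) = 0 → IsAlgebraic K z := by
  have hbase : ∀ (p : Fin n → K[X]), (∀ j, (p j).natDegree ≤ 0) → p ≠ 0 →
      ∑ j, aeval (xx K Ω) (p j) * z ^ (j : ℕ) = 0 → IsAlgebraic K z := by
    intro p hp hp0 hsum
    refine ⟨∑ j : Fin n, C ((p j).coeff 0) * X ^ (j : ℕ), ?_, ?_⟩
    · intro h0
      apply hp0
      ext1 j
      have h1 := congrArg (fun f => coeff f (j : ℕ)) h0
      simp only [finsetSum_coeff, coeff_C_mul, coeff_X_pow, coeff_zero] at h1
      rw [Finset.sum_eq_single j] at h1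
      · rw [if_pos rfl, mul_one] at h1
        rw [eq_C_of_natDegree_le_zero (hp j), h1, C_0]
        rfl
      · intro i _ hij
        rw [if_neg, mul_zero]
        intro h2
        exact hij (Fin.ext h2.symm)
      · intro h2
        exact absurd (Finset.mem_univ _) h2
    · rw [← hsum, map_sum]
      refine Finset.sum_congr rfl fun j _ => ?_
      rw [map_mul, map_pow, aeval_C, aeval_X]
      congr 1
      conv_rhs => rw [eq_C_of_natDegree_le_zero (hp j), aeval_C]
  intro N
  induction N with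
  | zero => exact hbase
  | succ N ih =>
    intro p hp hp0 hsum
    by_cases hder : (fun j => derivative (p j)) = 0
    · refine hbase p ?_ hp0 hsum
      intro j
      have h1 : derivative (p j) = 0 := congrFun hder j
      rw [derivative_eq_zero.1 h1]
    · refine ih (fun j => derivative (p j)) ?_ hder ?_
      · intro j
        have := natDegree_derivative_le (p j)
        have := hp j
        omega
      · have h1 := congrArg δ hsum
        rw [map_sum, map_zero] at h1
        rw [← h1]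
        refine Finset.sum_congr rfl fun j _ => ?_
        rw [Derivation.leibniz, der_aeval δ hδ, Derivation.leibniz_pow, hz, smul_zero, smul_zero,
          smul_zero, zero_add, smul_eq_mul, mul_comm]

theorem const_alg [FiniteDimensional (RatFunc K) Ω] (δ : Derivation K Ω Ω) (hδ : δ (xx K Ω) = 1)
    (z : Ω) (hz : δ z = 0) : IsAlgebraic K z := by
  have h1 : IsAlgebraic (RatFunc K) z := Algebra.IsAlgebraic.isAlgebraic z
  obtain ⟨f, hf0, hf⟩ := h1
  obtain ⟨b, u, hb, hu⟩ := exists_den (K := K) (Ω := Ω)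
    (fun j : Fin (f.natDegree + 1) => f.coeff (j : ℕ))
  have hb' : aeval (xx K Ω) b ≠ 0 := aeval_xx_ne_zero hb
  refine alg_of_rel δ hδ z hz (f.natDegree + 1) (Finset.univ.sup fun j => (u j).natDegree) u
    (fun j => Finset.le_sup (f := fun j => (u j).natDegree) (Finset.mem_univ j)) ?_ ?_
  · intro h0
    apply hf0
    rw [← leadingCoeff_eq_zero]
    have h2 := hu ⟨f.natDegree, Nat.lt_succ_self _⟩
    rw [h0] at h2
    simp only [Pi.zero_apply, map_zero, mul_eq_zero] at h2
    rcases h2 with h3 | h3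
    · exact absurd h3 hb'
    · exact (map_eq_zero (algebraMap (RatFunc K) Ω)).1 h3
  · simp_rw [← hu]
    rw [aeval_eq_sum_range, Finset.sum_range] at hf
    calc ∑ j : Fin (f.natDegree + 1), aeval (xx K Ω) b *
          algebraMap (RatFunc K) Ω (f.coeff (j : ℕ)) * z ^ (j : ℕ)
        = aeval (xx K Ω) b * ∑ j : Fin (f.natDegree + 1), f.coeff (j : ℕ) • z ^ (j : ℕ) := by
          rw [Finset.mul_sum]
          refine Finset.sum_congr rfl fun j _ => ?_
          rw [Algebra.smul_def]
          ring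
      _ = 0 := by rw [hf, mul_zero]

end Const

end Pool.Agent.K3h53.Fam
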